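import Mathlib

/-!
# Huneke's question on the type of quotients by products of ideals

For proper ideals `I`, `J` of `S = k[x_1, ..., x_n]` that are primary to the maximal ideal of the
origin, the socle of `S / IJ` has dimension at least `n` if both ideals are monomial, or if `J`
is generated by a regular sequence of length `n` and `J ⊆ I` (or some `u` outside `I + J`
satisfies `x_i u ∈ I` for all `i`).
-/

set_option autoImplicit false

open MvPolynomial
open scoped Pointwise

namespace Pool.Agent.Results.MP_8f10f1_al.ArtinianMonomial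

/-- The socle of `S / L`: the elements killed by all variables. -/
def socle {k : Type} [Field k] {n : ℕ} (L : Ideal (MvPolynomial (Fin n) k)) :
    Submodule k (MvPolynomial (Fin n) k ⧸ L) where
  carrier := {z | ∀ i : Fin n, Ideal.Quotient.mk L (X i) * z = 0}
  add_mem' := by
    intro a b ha hb i
    rw [mul_add, ha i, hb i, add_zero]
  zero_mem' := by
    intro i
    rw [mul_zero]
  smul_mem' := by
    intro c z hz i
    rw [mul_smul_comm, hz i, smul_zero]

/-- `I` contains a power of every variable. -/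
def HasPowers {k : Type} [Field k] {n : ℕ} (I : Ideal (MvPolynomial (Fin n) k)) : Prop :=
  ∀ i : Fin n, ∃ N : ℕ, (X i : MvPolynomial (Fin n) k) ^ N ∈ I

/-- `I` is generated by monomials. -/
def IsMonomial {k : Type} [Field k] {n : ℕ} (I : Ideal (MvPolynomial (Fin n) k)) : Prop :=
  ∃ A : Set (Fin n →₀ ℕ), I = Ideal.span ((fun s => monomial s (1 : k)) '' A)

/-- `g` is a regular sequence: `g i` is a nonzerodivisor modulo the previous elements. -/
def IsRegSeq {R : Type} [CommRing R] {n : ℕ} (g : Fin n → R) : Prop :=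
  ∀ (i : Fin n) (c : R), g i * c ∈ Ideal.span (g '' {j | j < i}) →
    c ∈ Ideal.span (g '' {j | j < i})

theorem rank_ge {k : Type} [Field k] {n : ℕ} {L : Ideal (MvPolynomial (Fin n) k)}
    (v : Fin n → MvPolynomial (Fin n) k) (hv : ∀ i j, X i * v j ∈ L)
    (hind : ∀ c : Fin n → k, (∑ j, C (c j) * v j) ∈ L → ∀ j, c j = 0) :
    (n : Cardinal) ≤ Module.rank k (socle L) := by
  let w : Fin n → socle L := fun j => ⟨Ideal.Quotient.mk L (v j), fun i => by
    rw [← map_mul]
    exact Ideal.Quotient.eq_zero_iff_mem.2 (hv i j)⟩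
  have hw : LinearIndependent k w := by
    rw [Fintype.linearIndependent_iff]
    intro c hc
    apply hind c
    rw [← Ideal.Quotient.eq_zero_iff_mem, map_sum]
    have h := congrArg Subtype.val hc
    rw [AddSubmonoidClass.coe_finsetSum] at h
    rw [show ((0 : socle L) : MvPolynomial (Fin n) k ⧸ L) = 0 from rfl] at h
    rw [← h]
    apply Finset.sum_congr rfl
    intro j _
    rw [← smul_eq_C_mul]
    rfl
  simpa using hw.cardinal_le_rank

/-! ### The monomial case -/

section monomial

variable {k : Type} [Field k] {n : ℕ}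

theorem mem_span_iff (A : Set (Fin n →₀ ℕ)) (e : Fin n →₀ ℕ) :
    monomial e (1 : k) ∈ Ideal.span ((fun s => monomial s (1 : k)) '' A) ↔ ∃ a ∈ A, a ≤ e := by
  classical
  rw [mem_ideal_span_monomial_image]
  constructor
  · intro h
    exact h e (by rw [mem_support_iff, coeff_monomial, if_pos rfl]; exact one_ne_zero)
  · intro h f hf
    rw [mem_support_iff, coeff_monomial] at hf
    by_cases hef : e = f
    · rw [← hef]
      exact h
    · rw [if_neg hef] at hf
      exact absurd rfl hf

theorem mul_span (A B : Set (Fin n →₀ ℕ)) :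
    Ideal.span ((fun s => monomial s (1 : k)) '' A) * Ideal.span ((fun s => monomial s (1 : k)) '' B)
      = Ideal.span ((fun s => monomial s (1 : k)) '' (A + B)) := by
  rw [Ideal.span_mul_span']
  congr 1
  ext f
  simp only [Set.mem_mul, Set.mem_image, Set.mem_add]
  constructor
  · rintro ⟨_, ⟨a, ha, rfl⟩, _, ⟨b, hb, rfl⟩, rfl⟩
    exact ⟨a + b, ⟨a, ha, b, hb, rfl⟩, by rw [monomial_mul, one_mul]⟩
  · rintro ⟨_, ⟨a, ha, b, hb, rfl⟩, rfl⟩
    exact ⟨_, ⟨a, ha, rfl⟩, _, ⟨b, hb, rfl⟩, by rw [monomial_mul, one_mul]⟩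

theorem monomial_case (A B : Set (Fin n →₀ ℕ)) (hA : (0 : Fin n →₀ ℕ) ∉ A)
    (hB : (0 : Fin n →₀ ℕ) ∉ B)
    (hA' : ∀ i : Fin n, ∃ N : ℕ, ∃ a ∈ A, a ≤ Finsupp.single i N)
    (hB' : ∀ i : Fin n, ∃ N : ℕ, ∃ b ∈ B, b ≤ Finsupp.single i N) :
    (n : Cardinal) ≤ Module.rank k
      (socle (Ideal.span ((fun s => monomial s (1 : k)) '' (A + B)))) := by
  classical
  -- the exponents of the product ideal
  let Ex : (Fin n →₀ ℕ) → Prop := fun e => ∃ c ∈ A + B, c ≤ e
  have hup : ∀ e f, Ex e → e ≤ f → Ex f := fun e f ⟨c, hc, h⟩ h' => ⟨c, hc, h.trans h'⟩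
  let α : Fin n → ℕ := fun i => Nat.find (hA' i)
  let β : Fin n → ℕ := fun i => Nat.find (hB' i)
  have hα : ∀ i, ∃ a ∈ A, a ≤ Finsupp.single i (α i) := fun i => Nat.find_spec (hA' i)
  have hβ : ∀ i, ∃ b ∈ B, b ≤ Finsupp.single i (β i) := fun i => Nat.find_spec (hB' i)
  have hα0 : ∀ i, 1 ≤ α i := by
    intro i
    by_contra h
    obtain ⟨a, ha, h2⟩ := hα i
    have h3 : α i = 0 := by omega
    rw [h3, Finsupp.single_zero] at h2
    exact hA (by rwa [show a = 0 from le_antisymm h2 zero_le] at ha)
  have hβ0 : ∀ i, 1 ≤ β i := by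
    intro i
    by_contra h
    obtain ⟨a, ha, h2⟩ := hβ i
    have h3 : β i = 0 := by omega
    rw [h3, Finsupp.single_zero] at h2
    exact hB (by rwa [show a = 0 from le_antisymm h2 zero_le] at ha)
  have key : ∀ (i : Fin n) (a : Fin n →₀ ℕ) (N : ℕ), a ≤ Finsupp.single i N →
      a = Finsupp.single i (a i) := by
    intro i a N h
    ext j
    by_cases hj : j = i
    · subst hj
      simp
    · have := h j
      rw [Finsupp.single_apply, if_neg (fun h => hj h.symm)] at this
      rw [Finsupp.single_apply, if_neg (fun h => hj h.symm)]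
      omega
  have hnot : ∀ i, ¬ Ex (Finsupp.single i (α i + β i - 1)) := by
    rintro i ⟨_, ⟨a, ha, b, hb, rfl⟩, h⟩
    have ha' : a ≤ Finsupp.single i (α i + β i - 1) := (self_le_add_right a b).trans h
    have hb' : b ≤ Finsupp.single i (α i + β i - 1) := (self_le_add_left b a).trans h
    have h1 : α i ≤ a i := Nat.find_min' (hA' i) ⟨a, ha, (key i a _ ha').le⟩
    have h2 : β i ≤ b i := Nat.find_min' (hB' i) ⟨b, hb, (key i b _ hb').le⟩
    have h3 := h i
    rw [Finsupp.add_apply, Finsupp.single_eq_same] at h3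
    have := hα0 i
    omega
  have hpow : ∀ j, Ex (Finsupp.single j (α j + β j)) := by
    intro j
    obtain ⟨a, ha, h1⟩ := hα j
    obtain ⟨b, hb, h2⟩ := hβ j
    refine ⟨a + b, ⟨a, ha, b, hb, rfl⟩, ?_⟩
    rw [Finsupp.single_add]
    exact add_le_add h1 h2
  -- maximal exponents
  have hmax : ∀ i, ∃ e : Fin n →₀ ℕ, ¬ Ex e ∧ Finsupp.single i (α i + β i - 1) ≤ e ∧
      ∀ j, Ex (e + Finsupp.single j 1) := by
    intro i
    let P : ℕ → Prop := fun D => ∃ e : Fin n →₀ ℕ, ¬ Ex e ∧
      Finsupp.single i (α i + β i - 1) ≤ e ∧ ∑ j, e j = D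
    have hb : ∀ D, P D → D ≤ ∑ j, (α j + β j) := by
      rintro D ⟨e, he, -, rfl⟩
      apply Finset.sum_le_sum
      intro j _
      by_contra h
      apply he
      apply hup _ _ (hpow j)
      intro l
      by_cases hl : l = j
      · subst hl
        rw [Finsupp.single_eq_same]
        omega
      · rw [Finsupp.single_apply, if_neg (fun h => hl h.symm)]
        omega
    have hP : ∃ D, P D := ⟨_, Finsupp.single i (α i + β i - 1), hnot i, le_refl _, rfl⟩
    obtain ⟨D0, hD0⟩ := hP
    have h1 : P (Nat.findGreatest P (∑ j, (α j + β j))) :=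
      Nat.findGreatest_spec (hb D0 hD0) hD0
    obtain ⟨e, he1, he2, he3⟩ := h1
    refine ⟨e, he1, he2, fun j => ?_⟩
    by_contra hj
    have h4 : P (Nat.findGreatest P (∑ j, (α j + β j)) + 1) := by
      refine ⟨e + Finsupp.single j 1, hj, he2.trans (self_le_add_right _ _), ?_⟩
      rw [← he3]
      simp only [Finsupp.add_apply, Finset.sum_add_distrib]
      congr 1
      rw [Finset.sum_eq_single j]
      · rw [Finsupp.single_eq_same]
      · intro l _ hl
        rw [Finsupp.single_apply, if_neg (fun h => hl h.symm)]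
      · intro h
        exact absurd (Finset.mem_univ _) h
    have := Nat.le_findGreatest (hb _ h4) h4
    omega
  choose e he1 he2 he3 using hmax
  have hinj : Function.Injective e := by
    intro i j hij
    by_contra hne
    apply he1 i
    obtain ⟨a, ha, h1⟩ := hα i
    obtain ⟨b, hb, h2⟩ := hβ j
    refine ⟨a + b, ⟨a, ha, b, hb, rfl⟩, ?_⟩
    refine (add_le_add h1 h2).trans ?_
    intro l
    rw [Finsupp.add_apply]
    by_cases hl : l = i
    · subst hl
      rw [Finsupp.single_eq_same, Finsupp.single_apply, if_neg (fun h => hne h.symm)]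
      have := he2 l l
      rw [Finsupp.single_eq_same] at this
      have := hβ0 l
      omega
    · by_cases hl' : l = j
      · subst hl'
        rw [Finsupp.single_eq_same, Finsupp.single_apply, if_neg (fun h => hl h.symm)]
        have := he2 l l
        rw [Finsupp.single_eq_same, ← hij] at this
        have := hα0 l
        omega
      · rw [Finsupp.single_apply, if_neg (fun h => hl h.symm), Finsupp.single_apply,
          if_neg (fun h => hl' h.symm)]
        omega
  apply rank_ge (fun j => monomial (e j) (1 : k))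
  · intro i j
    rw [show (X i : MvPolynomial (Fin n) k) = monomial (Finsupp.single i 1) 1 from rfl,
      monomial_mul, one_mul, mem_span_iff, add_comm (Finsupp.single i 1)]
    exact he3 j i
  · intro c hc j
    by_contra hcj
    rw [mem_ideal_span_monomial_image] at hc
    apply he1 j
    apply hc (e j)
    rw [mem_support_iff, coeff_sum, Finset.sum_eq_single j]
    · rw [coeff_C_mul, coeff_monomial, if_pos rfl, mul_one]
      exact hcj
    · intro l _ hl
      rw [coeff_C_mul, coeff_monomial, if_neg (fun h => hl (hinj h)), mul_zero]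
    · intro h
      exact absurd (Finset.mem_univ _) h

end monomial

/-! ### The complete intersection case -/

section ci

variable {R : Type} [CommRing R]

omit [CommRing R] in
theorem image_castSucc {n : ℕ} (g : Fin (n + 1) → R) (i : Fin n) :
    (fun j : Fin n => g j.castSucc) '' {j | j < i} = g '' {j | j < i.castSucc} := by
  ext y
  constructor
  · rintro ⟨j, hj, rfl⟩
    exact ⟨j.castSucc, Fin.castSucc_lt_castSucc_iff.2 hj, rfl⟩
  · rintro ⟨j, hj, rfl⟩
    have hj' : (j : ℕ) < i := hj
    exact ⟨⟨j, lt_trans hj' i.2⟩, hj', rfl⟩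

theorem rel_mem : ∀ {n : ℕ} (g : Fin n → R), IsRegSeq g → ∀ c : Fin n → R,
    ∑ i, g i * c i = 0 → ∀ i, c i ∈ Ideal.span (Set.range g)
  | 0, _, _, _, _ => fun i => i.elim0
  | n + 1, g, hg, c, hc => by
    have hg' : IsRegSeq (fun j : Fin n => g j.castSucc) := by
      intro i a ha
      rw [image_castSucc] at ha ⊢
      exact hg i.castSucc a ha
    rw [Fin.sum_univ_castSucc] at hc
    have hset : g '' {j | j < Fin.last n} = Set.range (fun j : Fin n => g j.castSucc) := by
      ext y
      constructor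
      · rintro ⟨j, hj, rfl⟩
        have hj' : (j : ℕ) < n := hj
        exact ⟨⟨j, hj'⟩, rfl⟩
      · rintro ⟨j, rfl⟩
        exact ⟨j.castSucc, Fin.castSucc_lt_last j, rfl⟩
    have h1 : g (Fin.last n) * c (Fin.last n) ∈ Ideal.span (g '' {j | j < Fin.last n}) := by
      rw [hset]
      have h2 : g (Fin.last n) * c (Fin.last n) = -∑ i : Fin n, g i.castSucc * c i.castSucc := by
        linear_combination hc
      rw [h2]
      refine neg_mem (Ideal.sum_mem _ fun i _ => Ideal.mul_mem_right _ _ ?_)
      exact Ideal.subset_span ⟨i, rfl⟩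
    have h3 := hg _ _ h1
    rw [hset] at h3
    obtain ⟨t, ht⟩ := (Ideal.mem_span_range_iff_exists_fun).1 h3
    have h4 : ∑ i : Fin n, g i.castSucc * (c i.castSucc + g (Fin.last n) * t i) = 0 := by
      have h5 : ∑ i : Fin n, g i.castSucc * (c i.castSucc + g (Fin.last n) * t i) =
          (∑ i : Fin n, g i.castSucc * c i.castSucc) +
            g (Fin.last n) * ∑ i : Fin n, t i * g i.castSucc := by
        rw [Finset.mul_sum, ← Finset.sum_add_distrib]
        exact Finset.sum_congr rfl fun i _ => by ring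
      rw [h5, ht]
      exact hc
    have h6 := rel_mem _ hg' _ h4
    have hle : Ideal.span (Set.range fun j : Fin n => g j.castSucc) ≤
        Ideal.span (Set.range g) := by
      apply Ideal.span_mono
      rintro _ ⟨j, rfl⟩
      exact ⟨_, rfl⟩
    intro i
    induction i using Fin.lastCases with
    | last => exact hle h3
    | cast i =>
      have h7 := hle (h6 i)
      have h8 : g (Fin.last n) * t i ∈ Ideal.span (Set.range g) :=
        Ideal.mul_mem_right _ _ (Ideal.subset_span ⟨_, rfl⟩)
      have h9 := sub_mem h7 h8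
      rwa [add_sub_cancel_right] at h9

end ci

/-- A proper ideal with powers of all variables has a socle monomial. -/
theorem exists_socle {k : Type} [Field k] {n : ℕ} {I : Ideal (MvPolynomial (Fin n) k)}
    (hI : I ≠ ⊤) (hp : HasPowers I) : ∃ u : MvPolynomial (Fin n) k, u ∉ I ∧ ∀ i, X i * u ∈ I := by
  classical
  choose N hN using hp
  let P : ℕ → Prop := fun D => ∃ e : Fin n →₀ ℕ, monomial e (1 : k) ∉ I ∧ ∑ j, e j = D
  have hb : ∀ D, P D → D ≤ ∑ j, N j := by
    rintro D ⟨e, he, rfl⟩
    apply Finset.sum_le_sum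
    intro j _
    by_contra h
    apply he
    have h1 : monomial e (1 : k) = X j ^ N j * monomial (e - Finsupp.single j (N j)) 1 := by
      rw [X_pow_eq_monomial, monomial_mul, one_mul, add_tsub_cancel_of_le]
      intro l
      by_cases hl : l = j
      · subst hl
        rw [Finsupp.single_eq_same]
        omega
      · rw [Finsupp.single_apply, if_neg (fun h => hl h.symm)]
        omega
    rw [h1]
    exact Ideal.mul_mem_right _ _ (hN j)
  have h0 : P 0 := by
    refine ⟨0, ?_, by simp⟩
    rw [show (monomial (0 : Fin n →₀ ℕ) (1 : k)) = 1 from rfl]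
    exact (Ideal.ne_top_iff_one I).1 hI
  obtain ⟨e, he1, he2⟩ : P (Nat.findGreatest P (∑ j, N j)) :=
    Nat.findGreatest_spec (hb 0 h0) h0
  refine ⟨monomial e 1, he1, fun i => ?_⟩
  by_contra hi
  have h4 : P (Nat.findGreatest P (∑ j, N j) + 1) := by
    refine ⟨Finsupp.single i 1 + e, ?_, ?_⟩
    · rwa [show (X i : MvPolynomial (Fin n) k) = monomial (Finsupp.single i 1) 1 from rfl,
        monomial_mul, one_mul] at hi
    · rw [← he2]
      simp only [Finsupp.add_apply, Finset.sum_add_distrib]
      rw [add_comm]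
      congr 1
      rw [Finset.sum_eq_single i]
      · rw [Finsupp.single_eq_same]
      · intro l _ hl
        rw [Finsupp.single_apply, if_neg (fun h => hl h.symm)]
      · intro h
        exact absurd (Finset.mem_univ _) h
  have := Nat.le_findGreatest (hb _ h4) h4
  omega

theorem ci_case {k : Type} [Field k] {n : ℕ} (I : Ideal (MvPolynomial (Fin n) k))
    (g : Fin n → MvPolynomial (Fin n) k) (hg : IsRegSeq g)
    (u : MvPolynomial (Fin n) k) (hu : u ∉ I ⊔ Ideal.span (Set.range g))
    (hXu : ∀ i, X i * u ∈ I) :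
    (n : Cardinal) ≤ Module.rank k (socle (I * Ideal.span (Set.range g))) := by
  apply rank_ge (fun j => g j * u)
  · intro i j
    rw [show X i * (g j * u) = (X i * u) * g j by ring]
    exact Ideal.mul_mem_mul (hXu i) (Ideal.subset_span ⟨j, rfl⟩)
  · intro c hc j
    by_contra hcj
    rw [← smul_eq_mul] at hc
    rw [Ideal.span, Submodule.mem_ideal_smul_span_iff_exists_sum] at hc
    obtain ⟨a, ha, hsum⟩ := hc
    rw [Finsupp.sum_fintype _ _ (fun i => by rw [zero_smul])] at hsum
    have h1 : ∑ i, g i * (C (c i) * u - a i) = 0 := by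
      have h2 : ∑ i, g i * (C (c i) * u - a i) =
          (∑ i, C (c i) * (g i * u)) - ∑ i, a i • g i := by
        rw [← Finset.sum_sub_distrib]
        exact Finset.sum_congr rfl fun i _ => by rw [smul_eq_mul]; ring
      rw [h2, hsum, sub_self]
    have h3 : C (c j) * u - a j ∈ I ⊔ Ideal.span (Set.range g) :=
      Ideal.mem_sup_right (rel_mem g hg _ h1 j)
    have h4 : C (c j) * u ∈ I ⊔ Ideal.span (Set.range g) := by
      have := add_mem h3 (Ideal.mem_sup_left (ha j))
      rwa [sub_add_cancel] at this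
    apply hu
    have h5 := Ideal.mul_mem_left (I ⊔ Ideal.span (Set.range g)) (C (c j)⁻¹) h4
    rwa [← mul_assoc, ← C_mul, inv_mul_cancel₀ hcj, C_1, one_mul] at h5

/-- Huneke's inequality `type (S / IJ) ≥ n` for proper ideals `I`, `J` of `k[x_1, ..., x_n]` that
contain powers of all variables, when both are monomial, or when `J` is a complete intersection
that is contained in `I`, or, more generally, such that some `u` outside `I + J` has
`x_i u ∈ I` for all `i`. -/
theorem result (k : Type) [Field k] (n : ℕ) (I J : Ideal (MvPolynomial (Fin n) k))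
    (hI : I ≠ ⊤) (hJ : J ≠ ⊤) (hpI : HasPowers I) (hpJ : HasPowers J)
    (h : (IsMonomial I ∧ IsMonomial J) ∨
      ((∃ g : Fin n → MvPolynomial (Fin n) k, IsRegSeq g ∧ J = Ideal.span (Set.range g)) ∧
        (J ≤ I ∨ ∃ u : MvPolynomial (Fin n) k, u ∉ I ⊔ J ∧ ∀ i, X i * u ∈ I))) :
    (n : Cardinal) ≤ Module.rank k (socle (I * J)) := by
  classical
  rcases h with ⟨⟨A, rfl⟩, ⟨B, rfl⟩⟩ | ⟨⟨g, hg, rfl⟩, h⟩
  · rw [mul_span]
    have h0 : ∀ A : Set (Fin n →₀ ℕ), Ideal.span ((fun s => monomial s (1 : k)) '' A) ≠ ⊤ →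
        (0 : Fin n →₀ ℕ) ∉ A := by
      intro A hA h
      apply hA
      rw [Ideal.eq_top_iff_one]
      exact Ideal.subset_span ⟨0, h, rfl⟩
    have h1 : ∀ A : Set (Fin n →₀ ℕ),
        HasPowers (Ideal.span ((fun s => monomial s (1 : k)) '' A)) →
        ∀ i : Fin n, ∃ N : ℕ, ∃ a ∈ A, a ≤ Finsupp.single i N := by
      intro A hA i
      obtain ⟨N, hN⟩ := hA i
      rw [X_pow_eq_monomial, mem_span_iff] at hN
      exact ⟨N, hN⟩
    exact monomial_case A B (h0 A hI) (h0 B hJ) (h1 A hpI) (h1 B hpJ)
  · rcases h with hle | ⟨u, hu, hXu⟩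
    · obtain ⟨u, hu, hXu⟩ := exists_socle hI hpI
      exact ci_case I g hg u (by rwa [sup_eq_left.2 hle]) hXu
    · exact ci_case I g hg u hu hXu

end Pool.Agent.Results.MP_8f10f1_al.ArtinianMonomial
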